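import Pool.Agent.GCT.Defs

/-!
# GCT-BlkNS: from `NS` to `GCA.NoStress`

`P = univ.image s`, `Q = univ.image t`; sums over `P` become sums over `Ix k` (`Finset.sum_image`, `s`, `t` injective).
Given `u0, v0, N` as in `NoStress`, let `N' a b = N (s a) (t b)`; the extra pair is `e = (a0, b0)` if `u0 = s a0`,
`v0 = t b0`, otherwise any `e` (if `Ix k` is empty there is nothing to prove).  The relations in
`EuclideanSpace ℝ (Fin d)` are read off coordinate by coordinate (`PiLp.smul_apply`, a sum of `WithLp.toLp` vectors: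
`WithLp.ofLp_sum`, `Finset.sum_apply`), they are the relations of `NS` for `x (s a) = toLp 2 (p a)`,
`x' (t b) = toLp 2 (q b)`.
-/

open Finset

namespace GCT

theorem blkNS {V : Type*} [DecidableEq V] {k d : ℕ} (Ω : SimpleGraph V) (s t : Ix k → V)
    (hs : Function.Injective s) (ht : Function.Injective t) (p q : Ix k → Fin d → ℝ)
    (h : ∀ e, NS (adjm Ω s t) e p q) (x x' : V → EuclideanSpace ℝ (Fin d))
    (hx : ∀ a, x (s a) = WithLp.toLp 2 (p a)) (hx' : ∀ b, x' (t b) = WithLp.toLp 2 (q b)) :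
    GCA.NoStress Ω (univ.image s) (univ.image t) x x' := by
  intro u0 v0 N hN hr hc u hu v hv
  obtain ⟨a, -, rfl⟩ := Finset.mem_image.1 hu
  obtain ⟨b, -, rfl⟩ := Finset.mem_image.1 hv
  -- the extra pair
  obtain ⟨e, he⟩ : ∃ e : Ix k × Ix k, ∀ a' b', s a' = u0 → t b' = v0 → (a', b') = e := by
    by_cases h1 : ∃ a0 b0, s a0 = u0 ∧ t b0 = v0
    · obtain ⟨a0, b0, h2, h3⟩ := h1
      refine ⟨(a0, b0), fun a' b' h4 h5 => ?_⟩
      rw [hs (h4.trans h2.symm), ht (h5.trans h3.symm)]
    · exact ⟨(a, b), fun a' b' h4 h5 => absurd ⟨a', b', h4, h5⟩ h1⟩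
  refine h e (fun a' b' => N (s a') (t b')) ?_ ?_ ?_ a b
  · intro a' b' hne
    rcases hN (s a') (Finset.mem_image_of_mem s (Finset.mem_univ a')) (t b')
      (Finset.mem_image_of_mem t (Finset.mem_univ b')) hne with h1 | ⟨h1, h2⟩
    · left
      simp only [adjm, decide_eq_true_eq]
      exact h1
    · exact Or.inr (he a' b' h1 h2)
  · intro a' c
    have h1 := hr (s a') (Finset.mem_image_of_mem s (Finset.mem_univ a'))
    rw [Finset.sum_image (fun i _ j _ hij => ht hij)] at h1
    have h2 : (∑ b' : Ix k, N (s a') (t b') • x' (t b')) c = (0 : EuclideanSpace ℝ (Fin d)) c := by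
      rw [h1]
    simp only [WithLp.ofLp_sum, Finset.sum_apply, hx', PiLp.smul_apply, smul_eq_mul,
      PiLp.zero_apply] at h2
    exact h2
  · intro b' c
    have h1 := hc (t b') (Finset.mem_image_of_mem t (Finset.mem_univ b'))
    rw [Finset.sum_image (fun i _ j _ hij => hs hij)] at h1
    have h2 : (∑ a' : Ix k, N (s a') (t b') • x (s a')) c = (0 : EuclideanSpace ℝ (Fin d)) c := by
      rw [h1]
    simp only [WithLp.ofLp_sum, Finset.sum_apply, hx, PiLp.smul_apply, smul_eq_mul,
      PiLp.zero_apply] at h2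
    exact h2

theorem blkNS_single {V E E' : Type*} [NormedAddCommGroup E] [InnerProductSpace ℝ E]
    [NormedAddCommGroup E'] [InnerProductSpace ℝ E'] (Ω : SimpleGraph V) (w : V) (Q : Finset V)
    (x : V → E) (x' : V → E') (hx : x w ≠ 0) : GCA.NoStress Ω {w} Q x x' := by
  intro u0 v0 N _ _ hc u hu v hv
  rw [Finset.mem_singleton] at hu
  subst hu
  have h1 := hc v hv
  rw [Finset.sum_singleton] at h1
  exact (smul_eq_zero.1 h1).resolve_right hx

end GCT
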