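import Pool.Agent.GCT.PairSp

/-!
# GCT-Cfg: generic vectors for all blocks
-/

open Finset

namespace GCT

/-- the system of linear equations for stresses between the blocks `i` and `j` -/
private noncomputable def cfgA {J : Type*} [DecidableEq J] (k d : ℕ) (f : Ix k × Ix k → Bool)
    (e : Ix k × Ix k) (i j : J) :
    (Ix k × Ix k) ⊕ (Ix k × Fin d) ⊕ (Ix k × Fin d) → Ix k × Ix k →
      MvPolynomial (J × Ix k × Fin d) ℝ
  | Sum.inl p, p' => if p' = p ∧ ¬ (f p = true ∨ p = e) then 1 else 0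
  | Sum.inr (Sum.inl (u, c)), p' => if p'.1 = u then MvPolynomial.X (j, p'.2, c) else 0
  | Sum.inr (Sum.inr (v, c)), p' => if p'.2 = v then MvPolynomial.X (i, p'.1, c) else 0

private theorem cfg_iff {J : Type*} [DecidableEq J] (k d : ℕ) (f : Ix k × Ix k → Bool)
    (e : Ix k × Ix k) (i j : J) (x : J × Ix k × Fin d → ℝ) (c : Ix k × Ix k → ℝ) :
    (∀ r, ∑ s, MvPolynomial.eval x (cfgA k d f e i j r s) * c s = 0) ↔
      ((∀ p, ¬ (f p = true ∨ p = e) → c p = 0) ∧
        (∀ u t, ∑ v, c (u, v) * x (j, v, t) = 0) ∧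
        (∀ v t, ∑ u, c (u, v) * x (i, u, t) = 0)) := by
  have h1 : ∀ p, ∑ s, MvPolynomial.eval x (cfgA k d f e i j (Sum.inl p) s) * c s =
      if ¬ (f p = true ∨ p = e) then c p else 0 := by
    intro p
    rw [Finset.sum_eq_single p]
    · by_cases h : ¬ (f p = true ∨ p = e)
      · simp only [cfgA]
        rw [if_pos ⟨trivial, h⟩, if_pos h, map_one, one_mul]
      · simp only [cfgA]
        rw [if_neg (fun h' => h h'.2), if_neg h, map_zero, zero_mul]
    · intro s _ hs
      simp only [cfgA]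
      rw [if_neg (fun h' => hs h'.1), map_zero, zero_mul]
    · intro h
      exact absurd (Finset.mem_univ _) h
  have h2 : ∀ u t, ∑ s, MvPolynomial.eval x (cfgA k d f e i j (Sum.inr (Sum.inl (u, t))) s) * c s =
      ∑ v, c (u, v) * x (j, v, t) := by
    intro u t
    rw [Fintype.sum_prod_type, Finset.sum_eq_single u]
    · refine Finset.sum_congr rfl fun v _ => ?_
      simp only [cfgA]
      rw [if_pos trivial, MvPolynomial.eval_X, mul_comm]
    · intro u' _ hu'
      refine Finset.sum_eq_zero fun v _ => ?_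
      simp only [cfgA]
      rw [if_neg hu', map_zero, zero_mul]
    · intro h
      exact absurd (Finset.mem_univ _) h
  have h3 : ∀ v t, ∑ s, MvPolynomial.eval x (cfgA k d f e i j (Sum.inr (Sum.inr (v, t))) s) * c s =
      ∑ u, c (u, v) * x (i, u, t) := by
    intro v t
    rw [Fintype.sum_prod_type_right, Finset.sum_eq_single v]
    · refine Finset.sum_congr rfl fun u _ => ?_
      simp only [cfgA]
      rw [if_pos trivial, MvPolynomial.eval_X, mul_comm]
    · intro v' _ hv'
      refine Finset.sum_eq_zero fun u _ => ?_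
      simp only [cfgA]
      rw [if_neg hv', map_zero, zero_mul]
    · intro h
      exact absurd (Finset.mem_univ _) h
  constructor
  · intro h
    refine ⟨fun p hp => ?_, fun u t => ?_, fun v t => ?_⟩
    · have h4 := h (Sum.inl p)
      rw [h1 p, if_pos hp] at h4
      exact h4
    · rw [← h2 u t]
      exact h _
    · rw [← h3 v t]
      exact h _
  · rintro ⟨ha, hb, hc⟩ r
    rcases r with p | ⟨u, t⟩ | ⟨v, t⟩
    · rw [h1 p]
      by_cases h : ¬ (f p = true ∨ p = e)
      · rw [if_pos h]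
        exact ha p h
      · rw [if_neg h]
    · rw [h2 u t]
      exact hb u t
    · rw [h3 v t]
      exact hc v t

private theorem cfg_gen {J : Type*} [DecidableEq J] (k m : ℕ) (f : Ix k × Ix k → Bool)
    (hf : nbad (k + 2 * m) f ≤ m) (e : Ix k × Ix k) (i j : J) (hij : i ≠ j) :
    Gen (fun x : J × Ix k × Fin (k + 2 * m) → ℝ =>
      NS f e (fun u t => x (i, u, t)) (fun v t => x (j, v, t))) := by
  obtain ⟨p, q, hpq⟩ := pair_special k m f hf e
  have h0 := gen_inj (cfgA k (k + 2 * m) f e i j)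
    (fun z => if z.1 = i then p z.2.1 z.2.2 else if z.1 = j then q z.2.1 z.2.2 else 0) (by
      intro c hc
      rw [cfg_iff] at hc
      obtain ⟨ha, hb, hc'⟩ := hc
      have h4 := hpq (fun u v => c (u, v)) (by
        intro u v hne
        by_contra h
        exact hne (ha (u, v) h)) (by
        intro u t
        have h5 := hb u t
        simpa [hij.symm] using h5) (by
        intro v t
        have h5 := hc' v t
        simpa using h5)
      intro s
      exact h4 s.1 s.2)
  refine h0.mono fun x hx N hN1 hN2 hN3 u v => ?_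
  exact hx (fun s => N s.1 s.2) ((cfg_iff k (k + 2 * m) f e i j x _).2 ⟨fun s hs => by
    by_contra h
    exact hs (hN1 s.1 s.2 h), fun u t => hN2 u t, fun v t => hN3 v t⟩) (u, v)

theorem exists_config {J : Type*} [Fintype J] [DecidableEq J] (k m : ℕ) (hkm : 0 < k + 2 * m)
    (F : J → J → Ix k × Ix k → Bool) :
    ∃ X : J → Ix k → Fin (k + 2 * m) → ℝ, (∀ i u v, ∑ c, X i u c * X i v c ≠ 0) ∧
      ∀ i j, i ≠ j → nbad (k + 2 * m) (F i j) ≤ m → ∀ e, NS (F i j) e (X i) (X j) := by
  have hA : Gen (fun x : J × Ix k × Fin (k + 2 * m) → ℝ => ∀ z : J × Ix k × Ix k,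
      ∑ c, x (z.1, z.2.1, c) * x (z.1, z.2.2, c) ≠ 0) := by
    refine Gen.all fun z => ?_
    refine ⟨∑ c, MvPolynomial.X (z.1, z.2.1, c) * MvPolynomial.X (z.1, z.2.2, c), ?_, ?_⟩
    · intro h0
      have h1 := congrArg (MvPolynomial.eval (fun _ : J × Ix k × Fin (k + 2 * m) => (1 : ℝ))) h0
      rw [map_sum, map_zero] at h1
      simp only [map_mul, MvPolynomial.eval_X, mul_one, Finset.sum_const, Finset.card_univ,
        Fintype.card_fin, nsmul_eq_mul] at h1
      have h2 : ((k + 2 * m : ℕ) : ℝ) ≠ 0 := by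
        exact_mod_cast hkm.ne'
      exact h2 h1
    · intro x hx
      simpa only [map_sum, map_mul, MvPolynomial.eval_X] using hx
  have hB : Gen (fun x : J × Ix k × Fin (k + 2 * m) → ℝ => ∀ z : J × J × (Ix k × Ix k),
      z.1 ≠ z.2.1 → nbad (k + 2 * m) (F z.1 z.2.1) ≤ m →
        NS (F z.1 z.2.1) z.2.2 (fun u t => x (z.1, u, t)) (fun v t => x (z.2.1, v, t))) := by
    refine Gen.all fun z => ?_
    by_cases h : z.1 ≠ z.2.1 ∧ nbad (k + 2 * m) (F z.1 z.2.1) ≤ m
    · exact (cfg_gen k m (F z.1 z.2.1) h.2 z.2.2 z.1 z.2.1 h.1).mono fun x hx _ _ => hx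
    · exact gen_true.mono fun x _ h1 h2 => absurd ⟨h1, h2⟩ h
  obtain ⟨x, hx1, hx2⟩ := (hA.and hB).exists_pt
  exact ⟨fun i u c => x (i, u, c), fun i u v => hx1 (i, u, v),
    fun i j hij hn e => hx2 (i, j, e) hij hn⟩

end GCT
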