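import Pool.Agent.GCA.PrA
import Pool.Agent.GCA.PrB
import Mathlib

/-!
# Project GCT (MP_2c4812_co): almost all graphs have PSD minimum rank at most (1/3 + ε) n: definitions
-/

open Finset

namespace GCT

/-- the index set of a block: `k` triples -/
abbrev Ix (k : ℕ) : Type := Fin k × Fin 3

/-- the number of `true`s -/
def tr (τ : Fin 3 → Bool) : ℕ := (univ.filter (fun r => τ r = true)).card

/-- the triple of columns `g` is good in dimension `d` -/
def GoodT {ρ : Type*} [Fintype ρ] (d : ℕ) (g : ρ → Fin 3 → Bool) : Prop :=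
  (∑ u, (tr (g u) - 1)) + 1 ≤ 2 * d ∧
    ∀ r s : Fin 3, r ≠ s → (univ.filter (fun u => g u r = true ∧ g u s = true)).card + 1 ≤ d

/-- the weaker condition which is really used -/
def OkT {ρ : Type*} [Fintype ρ] (d : ℕ) (g : ρ → Fin 3 → Bool) : Prop :=
  (∑ u, (tr (g u) - 1)) ≤ 2 * d ∧
    ∀ r s : Fin 3, r ≠ s → (univ.filter (fun u => g u r = true ∧ g u s = true)).card ≤ d

open Classical in
/-- the number of the bad triples of columns of `f` -/
noncomputable def nbad {k : ℕ} (d : ℕ) (f : Ix k × Ix k → Bool) : ℕ :=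
  (univ.filter (fun s : Fin k => ¬ GoodT d (fun (u : Ix k) (r : Fin 3) => f (u, (s, r))))).card

open Classical in
/-- adjacency matrix between two tuples -/
noncomputable def adjm {V : Type*} {k : ℕ} (Ω : SimpleGraph V) (s t : Ix k → V) :
    Ix k × Ix k → Bool :=
  fun p => decide (Ω.Adj (s p.1) (t p.2))

/-- injective tuple of pairwise non-adjacent vertices -/
def IndT {V ι : Type*} (Ω : SimpleGraph V) (t : ι → V) : Prop :=
  Function.Injective t ∧ ∀ a b, ¬ Ω.Adj (t a) (t b)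

/-- two disjoint independent tuples which are a bad pair -/
def BadPair {V : Type*} {k : ℕ} (Ω : SimpleGraph V) (m : ℕ) (s t : Ix k → V) : Prop :=
  IndT Ω s ∧ IndT Ω t ∧ (∀ a b, s a ≠ t b) ∧ m < nbad (k + 2 * m) (adjm Ω s t)

open Classical in
/-- in every set `W` of at least `L` vertices almost all vertices have almost half of `W` as
non-neighbours -/
def Typ {n : ℕ} (Ω : SimpleGraph (Fin n)) (δ L : ℝ) : Prop :=
  ∀ W : Finset (Fin n), L ≤ (W.card : ℝ) →
    ((W.filter (fun v => ((W.filter (fun w => w ≠ v ∧ ¬ Ω.Adj v w)).card : ℝ) <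
      (1 / 2 - δ) * (W.card : ℝ))).card : ℝ) ≤ δ * (W.card : ℝ)

/-- no relation on the triple of columns `g` for the row vectors `p` -/
def TC {ρ : Type*} [Fintype ρ] {d : ℕ} (g : ρ → Fin 3 → Bool) (p : ρ → Fin d → ℝ) : Prop :=
  ∀ N : ρ → Fin 3 → ℝ, (∀ u r, N u r ≠ 0 → g u r = true) → (∀ u, ∑ r, N u r = 0) →
    (∀ r c, ∑ u, N u r * p u c = 0) → ∀ u r, N u r = 0

/-- no stress between two blocks with vectors `p`, `q`, where the pair `e` is allowed in addition -/
def NS {k d : ℕ} (f : Ix k × Ix k → Bool) (e : Ix k × Ix k) (p q : Ix k → Fin d → ℝ) : Prop :=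
  ∀ N : Ix k → Ix k → ℝ, (∀ u v, N u v ≠ 0 → f (u, v) = true ∨ (u, v) = e) →
    (∀ u c, ∑ v, N u v * q v c = 0) → (∀ v c, ∑ u, N u v * p u c = 0) → ∀ u v, N u v = 0

/-- `P` holds outside of the zero set of a nonzero polynomial -/
def Gen {ι : Type*} (P : (ι → ℝ) → Prop) : Prop :=
  ∃ p : MvPolynomial ι ℝ, p ≠ 0 ∧ ∀ x : ι → ℝ, MvPolynomial.eval x p ≠ 0 → P x

end GCT
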