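import Pool.Agent.GCA.TotStress
import Pool.Agent.GCT.Defs

/-!
# GCT-TotS: the direct sum of independent blocks has no stress

Same proof as `GCA.tot_stress` in `Pool/Agent/GCA/TotStress.lean` (copy the private auxiliary lemma `totStress_aux`
under a new name); inside a block there are no edges of `Ω` and the extra pair is between two blocks, so `N u v = 0`.
-/

open Finset

namespace GCT

open GCA

private theorem totS_aux {V ι : Type*} [Fintype V] [Fintype ι] [DecidableEq ι]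
    (Ω : SimpleGraph V) (β : V → ι) (d : ι → ℕ) (x : ∀ i, V → EuclideanSpace ℝ (Fin (d i)))
    (u0 v0 : V) (N : V → V → ℝ) (hsym : ∀ u v, N u v = N v u)
    (hN : ∀ u v, N u v ≠ 0 → Ω.Adj u v ∨ (u = u0 ∧ v = v0) ∨ (u = v0 ∧ v = u0))
    (hsum : ∀ u, ∑ v, N u v • tot β d x v = 0) (i j : ι) (hij : i ≠ j)
    (h : NoStress Ω (blk β i) (blk β j) (x i) (x j)) :
    ∀ u ∈ blk β i, ∀ v ∈ blk β j, N u v = 0 := by
  have hm : ∀ k w, w ∈ blk β k ↔ β w = k := fun k w => by simp [blk]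
  have h1 : ∀ a ∈ blk β i, ∑ v ∈ blk β j, N a v • x j v = 0 := fun a _ =>
    tot_comp β d x (N a) (hsum a) j
  have h2 : ∀ b ∈ blk β j, ∑ u ∈ blk β i, N u b • x i u = 0 := by
    intro b _
    have := tot_comp β d x (N b) (hsum b) i
    rw [← this]
    exact Finset.sum_congr rfl fun u _ => by rw [hsym u b]
  by_cases hu0 : β u0 = i
  · refine h u0 v0 N (fun a ha b hb hab => ?_) h1 h2
    rcases hN a b hab with h3 | h3 | ⟨h3, h4⟩
    · exact Or.inl h3
    · exact Or.inr h3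
    · exfalso
      rw [hm] at hb
      rw [h4, hu0] at hb
      exact hij hb
  · refine h v0 u0 N (fun a ha b hb hab => ?_) h1 h2
    rcases hN a b hab with h3 | ⟨h3, h4⟩ | h3
    · exact Or.inl h3
    · exfalso
      rw [hm, h3] at ha
      exact hu0 ha
    · exact Or.inr h3

theorem tot_stress' {V ι : Type*} [Fintype V] [DecidableEq V] [Fintype ι] [DecidableEq ι]
    (Ω : SimpleGraph V) (β : V → ι) (d : ι → ℕ) (x : ∀ i, V → EuclideanSpace ℝ (Fin (d i)))
    (hin : ∀ u v, β u = β v → ¬ Ω.Adj u v)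
    (hcr : ∀ i j, i ≠ j → NoStress Ω (blk β i) (blk β j) (x i) (x j) ∨
      NoStress Ω (blk β j) (blk β i) (x j) (x i))
    (u0 v0 : V) (hne : β u0 ≠ β v0) (N : V → V → ℝ) (hsym : ∀ u v, N u v = N v u)
    (hN : ∀ u v, N u v ≠ 0 → Ω.Adj u v ∨ (u = u0 ∧ v = v0) ∨ (u = v0 ∧ v = u0))
    (hsum : ∀ u, ∑ v, N u v • tot β d x v = 0) : ∀ u v, N u v = 0 := by
  intro u v
  have hm : ∀ k w, w ∈ blk β k ↔ β w = k := fun k w => by simp [blk]
  by_cases huv : β u = β v
  · by_contra hNw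
    rcases hN u v hNw with h3 | ⟨h3, h4⟩ | ⟨h3, h4⟩
    · exact hin u v huv h3
    · rw [h3, h4] at huv
      exact hne huv
    · rw [h3, h4] at huv
      exact hne huv.symm
  · rcases hcr (β u) (β v) huv with h | h
    · exact totS_aux Ω β d x u0 v0 N hsym hN hsum (β u) (β v) huv h u ((hm _ _).2 rfl) v
        ((hm _ _).2 rfl)
    · rw [hsym]
      exact totS_aux Ω β d x u0 v0 N hsym hN hsum (β v) (β u) (Ne.symm huv) h v
        ((hm _ _).2 rfl) u ((hm _ _).2 rfl)

end GCT
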