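import Pool.Agent.GCA.IftD
import Pool.Agent.GCT.TotS
import Pool.Agent.GCT.BlkNS
import Pool.Agent.GCT.Cfg

/-!
# GCT-Det: the deterministic theorem

`W = {w : Fin n // ∀ j a, t j a ≠ w}`, `ι = J ⊕ W`, `β v = inl j` if `v = t j a` for some `a`, else `inr ⟨v, _⟩`
(classical choice; `β (t j a) = inl j` by injectivity).  `d (inl j) = k + 2 m`, `d (inr w) = 1`.
`X` from `exists_config` with `F i j = adjm Ω (t i) (t j)`.  `x (inl j) v = toLp 2 (X j a)` if `v = t j a`, `0` otherwise;
`x (inr w) v = toLp 2 (fun _ => 1)`.  The vectors `T = tot β d x : Fin n → PiLp 2 ..`.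
* `OR Ω univ T`: different blocks `tot_ne`; the same block: no edges (`hind`, and a one element block has no edges).
* if `u0 ≠ v0` and `⟪T u0, T v0⟫ = 0` then `β u0 ≠ β v0`: otherwise both are in the block of some `j`,
  `tot_same`, the inner product is `∑ c, X j a c * X j b c ≠ 0`.
* `StressFree Ω T u0 v0` from `tot_stress'`: `hin` clear, `hcr (inl i) (inl j)`: `blk β (inl j) = univ.image (t j)`,
  `blkNS` with `X`'s property for `(i, j)` or `(j, i)`; `hcr` with an `inr`: `blk β (inr w) = {w.1}`, `blkNS_single`.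
Then `GCA.faithful_of_stressFree`, `MrGC.pr_of_rep`, and
`finrank ℝ (PiLp 2 ..) = ∑ i, d i = card J * (k + 2 m) + card W` (see the end of the proof of `GCA.blocks`), and
`card W = n - 3 k card J` (complement of the image of an injective map from `J × Ix k`).
-/

open scoped RealInnerProductSpace
open Finset

namespace GCT

open GCA

/-- the vertices outside of all blocks -/
private abbrev DetW {n : ℕ} {J : Type} {k : ℕ} (t : J → Ix k → Fin n) : Type :=
  {w : Fin n // ∀ j a, t j a ≠ w}

open Classical in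
/-- the block of a vertex -/
private noncomputable def DetBeta {n : ℕ} {J : Type} {k : ℕ} (t : J → Ix k → Fin n) (v : Fin n) :
    J ⊕ DetW t :=
  if h : ∃ p : J × Ix k, t p.1 p.2 = v then Sum.inl h.choose.1
  else Sum.inr ⟨v, fun j a hja => h ⟨(j, a), hja⟩⟩

private theorem DetBeta_t {n : ℕ} {J : Type} {k : ℕ} (t : J → Ix k → Fin n)
    (hinj : Function.Injective (fun p : J × Ix k => t p.1 p.2)) (j : J) (a : Ix k) :
    DetBeta t (t j a) = Sum.inl j := by
  have h : ∃ p : J × Ix k, t p.1 p.2 = t j a := ⟨(j, a), rfl⟩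
  unfold DetBeta
  rw [dif_pos h]
  have h2 : h.choose = (j, a) := hinj h.choose_spec
  rw [h2]

private theorem DetBeta_inl {n : ℕ} {J : Type} {k : ℕ} (t : J → Ix k → Fin n) (v : Fin n) (j : J)
    (h : DetBeta t v = Sum.inl j) : ∃ a, t j a = v := by
  unfold DetBeta at h
  split_ifs at h with h1
  have h2 := h1.choose_spec
  have h3 : h1.choose.1 = j := Sum.inl_injective h
  exact ⟨h1.choose.2, by rw [← h3]; exact h2⟩

private theorem DetBeta_inr {n : ℕ} {J : Type} {k : ℕ} (t : J → Ix k → Fin n) (v : Fin n)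
    (w : DetW t) (h : DetBeta t v = Sum.inr w) : v = w.1 := by
  unfold DetBeta at h
  split_ifs at h with h1
  exact congrArg Subtype.val (Sum.inr_injective h)

/-- the dimensions -/
private def DetD {n : ℕ} {J : Type} {k : ℕ} (m : ℕ) (t : J → Ix k → Fin n) :
    J ⊕ DetW t → ℕ
  | Sum.inl _ => k + 2 * m
  | Sum.inr _ => 1

open Classical in
/-- the vectors -/
private noncomputable def DetX {n : ℕ} {J : Type} {k : ℕ} (m : ℕ) (t : J → Ix k → Fin n)
    (X : J → Ix k → Fin (k + 2 * m) → ℝ) :
    ∀ i : J ⊕ DetW t, Fin n → EuclideanSpace ℝ (Fin (DetD m t i))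
  | Sum.inl j => fun v => if h : ∃ a, t j a = v then WithLp.toLp 2 (X j h.choose) else 0
  | Sum.inr _ => fun _ => WithLp.toLp 2 (fun _ => 1)

private theorem DetX_t {n : ℕ} {J : Type} {k : ℕ} (m : ℕ) (t : J → Ix k → Fin n)
    (X : J → Ix k → Fin (k + 2 * m) → ℝ) (j : J) (hj : Function.Injective (t j)) (a : Ix k) :
    DetX m t X (Sum.inl j) (t j a) = WithLp.toLp 2 (X j a) := by
  have h : ∃ b, t j b = t j a := ⟨a, rfl⟩
  have h1 : DetX m t X (Sum.inl j) (t j a) = if h : ∃ b, t j b = t j a then
      (WithLp.toLp 2 (X j h.choose) : EuclideanSpace ℝ (Fin (k + 2 * m))) else 0 := rfl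
  rw [h1, dif_pos h]
  have h2 : h.choose = a := hj h.choose_spec
  rw [h2]

private theorem Det_blk_inl {n : ℕ} {J : Type} [DecidableEq J] {k : ℕ} (t : J → Ix k → Fin n)
    (hinj : Function.Injective (fun p : J × Ix k => t p.1 p.2)) (j : J) :
    blk (DetBeta t) (Sum.inl j) = univ.image (t j) := by
  classical
  ext v
  simp only [blk, mem_filter, mem_univ, true_and, mem_image]
  constructor
  · exact DetBeta_inl t v j
  · rintro ⟨a, rfl⟩
    exact DetBeta_t t hinj j a

private theorem Det_blk_inr {n : ℕ} {J : Type} [DecidableEq J] {k : ℕ} (t : J → Ix k → Fin n)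
    (w : DetW t) : blk (DetBeta t) (Sum.inr w) = {w.1} := by
  classical
  ext v
  simp only [blk, mem_filter, mem_univ, true_and, mem_singleton]
  constructor
  · exact DetBeta_inr t v w
  · intro h
    have h1 : ¬ ∃ p : J × Ix k, t p.1 p.2 = v := by
      rintro ⟨p, hp⟩
      exact w.2 p.1 p.2 (hp.trans h)
    unfold DetBeta
    rw [dif_neg h1]
    congr 1
    exact Subtype.ext h

theorem det_thm {n : ℕ} (Ω : SimpleGraph (Fin n)) {J : Type} [Fintype J] [DecidableEq J] (k m : ℕ)
    (hkm : 0 < k + 2 * m) (t : J → Ix k → Fin n)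
    (hinj : Function.Injective (fun p : J × Ix k => t p.1 p.2))
    (hind : ∀ j a b, ¬ Ω.Adj (t j a) (t j b))
    (hgood : ∀ i j, i ≠ j → nbad (k + 2 * m) (adjm Ω (t i) (t j)) ≤ m ∨
      nbad (k + 2 * m) (adjm Ω (t j) (t i)) ≤ m) :
    MrGC.PR Ω (Fintype.card J * (k + 2 * m) + (n - 3 * k * Fintype.card J)) := by
  have hj : ∀ j, Function.Injective (t j) := by
    intro j a b h
    have h1 : ((j, a) : J × Ix k) = (j, b) := hinj h
    exact (Prod.mk.injEq _ _ _ _ ▸ h1).2
  obtain ⟨X, hX1, hX2⟩ := exists_config k m hkm (fun i j => adjm Ω (t i) (t j))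
  have hin : ∀ u v, DetBeta t u = DetBeta t v → ¬ Ω.Adj u v := by
    intro u v huv
    rcases hv : DetBeta t v with j | w
    · rw [hv] at huv
      obtain ⟨a, rfl⟩ := DetBeta_inl t u j huv
      obtain ⟨b, rfl⟩ := DetBeta_inl t v j hv
      exact hind j a b
    · rw [hv] at huv
      rw [DetBeta_inr t u w huv, DetBeta_inr t v w hv]
      exact Ω.irrefl
  have hw0 : ∀ (w : DetW t) (v : Fin n), DetX m t X (Sum.inr w) v ≠ 0 := by
    intro w v h
    have h1 : (WithLp.toLp 2 (fun _ => (1 : ℝ)) : EuclideanSpace ℝ (Fin 1)) = 0 := h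
    have h2 := congrArg (fun z : EuclideanSpace ℝ (Fin 1) => z 0) h1
    simp at h2
  have hcr : ∀ i j, i ≠ j →
      NoStress Ω (blk (DetBeta t) i) (blk (DetBeta t) j) (DetX m t X i) (DetX m t X j) ∨
      NoStress Ω (blk (DetBeta t) j) (blk (DetBeta t) i) (DetX m t X j) (DetX m t X i) := by
    intro i j hij
    rcases i with i | w
    · rcases j with j | w
      · have hij' : i ≠ j := fun h => hij (by rw [h])
        rw [Det_blk_inl t hinj, Det_blk_inl t hinj]
        rcases hgood i j hij' with h | h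
        · left
          exact blkNS Ω (t i) (t j) (hj i) (hj j) (X i) (X j) (hX2 i j hij' h) _ _
            (DetX_t m t X i (hj i)) (DetX_t m t X j (hj j))
        · right
          exact blkNS Ω (t j) (t i) (hj j) (hj i) (X j) (X i) (hX2 j i hij'.symm h) _ _
            (DetX_t m t X j (hj j)) (DetX_t m t X i (hj i))
      · right
        rw [Det_blk_inr t w]
        exact blkNS_single Ω w.1 _ _ _ (hw0 w _)
    · left
      rw [Det_blk_inr t w]
      exact blkNS_single Ω w.1 _ _ _ (hw0 w _)
  have hOR : MrGC.OR Ω univ (tot (DetBeta t) (DetD m t) (DetX m t X)) := by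
    intro u _ v _ huv
    exact tot_ne _ _ _ u v (fun h => hin u v h huv)
  obtain ⟨Y, hY1, hY2⟩ := faithful_of_stressFree Ω (tot (DetBeta t) (DetD m t) (DetX m t X)) hOR (by
    intro u0 v0 hne hadj h0
    have hb : DetBeta t u0 ≠ DetBeta t v0 := by
      intro hb
      rw [tot_same _ _ _ u0 v0 hb] at h0
      rcases hv : DetBeta t v0 with j | w
      · rw [hv] at hb
        obtain ⟨a, rfl⟩ := DetBeta_inl t u0 j hb
        obtain ⟨b, rfl⟩ := DetBeta_inl t v0 j hv
        rw [hb, DetX_t m t X j (hj j), DetX_t m t X j (hj j)] at h0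
        apply hX1 j a b
        have h1 : ⟪(WithLp.toLp 2 (X j a) : EuclideanSpace ℝ (Fin (k + 2 * m))),
            WithLp.toLp 2 (X j b)⟫ = 0 := h0
        rw [PiLp.inner_apply] at h1
        rw [← h1]
        refine Finset.sum_congr rfl fun c _ => ?_
        simp [mul_comm]
      · rw [hv] at hb
        exact hne ((DetBeta_inr t u0 w hb).trans (DetBeta_inr t v0 w hv).symm)
    intro N hsym hN hsum
    exact tot_stress' Ω (DetBeta t) (DetD m t) (DetX m t X) hin hcr u0 v0 hb N hsym hN hsum)
  have hfin : Module.finrank ℝ (PiLp 2 (fun i => EuclideanSpace ℝ (Fin (DetD m t i)))) =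
      ∑ i, DetD m t i := by
    rw [(WithLp.linearEquiv 2 ℝ (∀ i, EuclideanSpace ℝ (Fin (DetD m t i)))).finrank_eq,
      Module.finrank_pi_fintype]
    exact Finset.sum_congr rfl (fun i _ => finrank_euclideanSpace_fin)
  have hsum : ∑ i, DetD m t i =
      Fintype.card J * (k + 2 * m) + (n - 3 * k * Fintype.card J) := by
    rw [Fintype.sum_sum_type]
    have h1 : ∑ j : J, DetD m t (Sum.inl j) = Fintype.card J * (k + 2 * m) := by
      have : ∀ j : J, DetD m t (Sum.inl j) = k + 2 * m := fun _ => rfl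
      simp [this]
    have h2 : ∑ w : DetW t, DetD m t (Sum.inr w) = Fintype.card (DetW t) := by
      have : ∀ w : DetW t, DetD m t (Sum.inr w) = 1 := fun _ => rfl
      simp [this]
    have h3 : Fintype.card (DetW t) = n - 3 * k * Fintype.card J := by
      have h4 : (univ.image (fun p : J × Ix k => t p.1 p.2)).card = 3 * k * Fintype.card J := by
        rw [Finset.card_image_of_injective _ hinj, Finset.card_univ, Fintype.card_prod,
          Fintype.card_prod, Fintype.card_fin, Fintype.card_fin]
        ring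
      rw [Fintype.card_subtype, ← h4]
      have h5 : (univ.filter fun w : Fin n => ∀ j a, t j a ≠ w) =
          (univ.image (fun p : J × Ix k => t p.1 p.2))ᶜ := by
        ext w
        simp only [mem_filter, mem_univ, true_and, mem_compl, mem_image]
        constructor
        · rintro h ⟨p, hp⟩
          exact h p.1 p.2 hp
        · intro h j a hja
          exact h ⟨(j, a), hja⟩
      rw [h5, Finset.card_compl, Fintype.card_fin]
    rw [h1, h2, h3]
  have := MrGC.pr_of_rep hY1 hY2
  rw [hfin, hsum] at this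
  exact this

end GCT
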