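import Pool.Agent.GCT.Defs

/-!
# GCT-Gen: generic properties

* `mono`, `true`: trivial (`p = 1`).
* `and`: the product of the polynomials (`mul_ne_zero`, `MvPolynomial ι ℝ` is a domain; `map_mul`).
* `all`: the product over the finite index type (`Finset.prod_ne_zero_iff`, `map_prod`), the polynomials chosen
  with `choose`; `κ` finite: `Fintype κ`.
* `exists_pt`: if `eval x p = 0` for all `x` then `p = 0` (`MvPolynomial.funext`, infinite field).
* `gen_inj`: `M : Matrix R S (MvPolynomial ι ℝ) := Matrix.of a`, `p = (Mᵀ * M).det`.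
  For a point `x` put `A = M.map (eval x)`; `eval x p = (Aᵀ * A).det` (`RingHom.map_det`, `Matrix.map_mul`, or
  `(MvPolynomial.eval x).map_det`).  If `A *ᵥ c = 0` implies `c = 0` then `Aᵀ * A` is injective
  (`c ⬝ᵥ (Aᵀ * A) *ᵥ c = (A *ᵥ c) ⬝ᵥ (A *ᵥ c)`, `Matrix.dotProduct_self_eq_zero`), so its determinant is not zero
  (`Matrix.exists_mulVec_eq_zero_iff : (∃ v ≠ 0, M *ᵥ v = 0) ↔ M.det = 0`).  Conversely if
  `(Aᵀ * A).det ≠ 0` and `A *ᵥ c = 0` then `(Aᵀ * A) *ᵥ c = 0`, so `c = 0`.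
-/

open Finset

namespace GCT

variable {ι : Type*}

theorem gen_true : Gen (fun _ : ι → ℝ => True) := by
  exact ⟨1, one_ne_zero, fun _ _ => trivial⟩

theorem Gen.mono {P Q : (ι → ℝ) → Prop} (h : Gen P) (hPQ : ∀ x, P x → Q x) : Gen Q := by
  obtain ⟨p, hp, hx⟩ := h
  exact ⟨p, hp, fun x h => hPQ x (hx x h)⟩

theorem Gen.and {P Q : (ι → ℝ) → Prop} (hP : Gen P) (hQ : Gen Q) : Gen (fun x => P x ∧ Q x) := by
  obtain ⟨p, hp, hx⟩ := hP
  obtain ⟨q, hq, hy⟩ := hQ
  refine ⟨p * q, mul_ne_zero hp hq, fun x h => ?_⟩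
  rw [map_mul] at h
  exact ⟨hx x (left_ne_zero_of_mul h), hy x (right_ne_zero_of_mul h)⟩

theorem Gen.all {κ : Type*} [Fintype κ] {P : κ → (ι → ℝ) → Prop} (h : ∀ k, Gen (P k)) :
    Gen (fun x => ∀ k, P k x) := by
  choose p hp hx using h
  refine ⟨∏ k, p k, Finset.prod_ne_zero_iff.mpr (fun k _ => hp k), fun x h k => ?_⟩
  rw [map_prod] at h
  exact hx k x (Finset.prod_ne_zero_iff.mp h k (Finset.mem_univ k))

theorem Gen.exists_pt {P : (ι → ℝ) → Prop} (h : Gen P) : ∃ x, P x := by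
  obtain ⟨p, hp, hx⟩ := h
  by_contra hne
  apply hp
  apply MvPolynomial.funext
  intro x
  rw [map_zero]
  by_contra h0
  exact hne ⟨x, hx x h0⟩

theorem gen_inj {R S : Type*} [Fintype R] [Fintype S] (a : R → S → MvPolynomial ι ℝ) (x0 : ι → ℝ)
    (h : ∀ c : S → ℝ, (∀ r, ∑ s, MvPolynomial.eval x0 (a r s) * c s = 0) → ∀ s, c s = 0) :
    Gen (fun x => ∀ c : S → ℝ, (∀ r, ∑ s, MvPolynomial.eval x (a r s) * c s = 0) →
      ∀ s, c s = 0) := by
  classical
  let M : Matrix R S (MvPolynomial ι ℝ) := Matrix.of a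
  have hev : ∀ x : ι → ℝ, MvPolynomial.eval x (M.transpose * M).det =
      ((M.map (MvPolynomial.eval x)).transpose * M.map (MvPolynomial.eval x)).det := by
    intro x
    rw [RingHom.map_det]
    congr 1
    rw [RingHom.mapMatrix_apply, Matrix.map_mul, Matrix.transpose_map]
  have hmv : ∀ (x : ι → ℝ) (c : S → ℝ),
      (∀ r, ∑ s, MvPolynomial.eval x (a r s) * c s = 0) ↔
      (M.map (MvPolynomial.eval x)).mulVec c = 0 := by
    intro x c
    constructor
    · intro h
      funext r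
      exact h r
    · intro h r
      exact congrFun h r
  have key : ∀ A : Matrix R S ℝ, (∀ c, A.mulVec c = 0 → c = 0) ↔ (A.transpose * A).det ≠ 0 := by
    intro A
    have h1 : ∀ c, (A.transpose * A).mulVec c = 0 ↔ A.mulVec c = 0 := by
      intro c
      have := Matrix.conjTranspose_mul_self_mulVec_eq_zero A c
      rwa [Matrix.conjTranspose_eq_transpose_of_trivial] at this
    constructor
    · intro h h0
      obtain ⟨v, hv, hv0⟩ := Matrix.exists_mulVec_eq_zero_iff.mpr h0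
      exact hv (h v ((h1 v).mp hv0))
    · intro h c hc
      by_contra hne
      exact h (Matrix.exists_mulVec_eq_zero_iff.mp ⟨c, hne, (h1 c).mpr hc⟩)
  refine ⟨(M.transpose * M).det, ?_, fun x hx c hc => ?_⟩
  · intro h0
    have h2 := (key (M.map (MvPolynomial.eval x0))).mp
      (fun c hc => funext (h c ((hmv x0 c).mpr hc)))
    apply h2
    rw [← hev, h0, map_zero]
  · rw [hev] at hx
    exact congrFun ((key _).mpr hx c ((hmv x c).mp hc))

end GCT
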