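import Pool.Agent.GCT.Defs

/-!
# GCT-Cls: the classes of columns

The quotient type: `C = {s : Fin k // s ∉ B} ⊕ ({s : Fin k // s ∈ B} × Fin 3)` has `(k - |B|) + 3 |B| = k + 2 |B| ≤ k + 2 m`
elements, so there is an embedding `C ↪ Fin (k + 2 * m)` (`Function.Embedding.nonempty_of_card_le`).
`cl (s, r)` is the image of `inl s` if `s ∉ B` and of `inr (s, r)` if `s ∈ B`.
-/

open Finset

namespace GCT

theorem cls (k m : ℕ) (B : Finset (Fin k)) (hB : B.card ≤ m) :
    ∃ cl : Ix k → Fin (k + 2 * m), ∀ v w, cl v = cl w ↔ v = w ∨ (v.1 = w.1 ∧ v.1 ∉ B) := by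
  classical
  have hcard : Fintype.card ({s : Fin k // s ∉ B} ⊕ ({s : Fin k // s ∈ B} × Fin 3)) ≤
      Fintype.card (Fin (k + 2 * m)) := by
    rw [Fintype.card_sum, Fintype.card_prod, Fintype.card_fin, Fintype.card_fin]
    have h1 : Fintype.card {s : Fin k // s ∈ B} = B.card := Fintype.card_coe B
    have h2 : Fintype.card {s : Fin k // s ∉ B} = k - B.card := by
      rw [Fintype.card_subtype_compl (fun s : Fin k => s ∈ B), h1, Fintype.card_fin]
    have h3 : B.card ≤ k := by simpa using Finset.card_le_univ B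
    rw [h1, h2]
    omega
  obtain ⟨ι⟩ := Function.Embedding.nonempty_of_card_le hcard
  refine ⟨fun v => if h : v.1 ∈ B then ι (Sum.inr (⟨v.1, h⟩, v.2)) else ι (Sum.inl ⟨v.1, h⟩), ?_⟩
  rintro ⟨s, r⟩ ⟨s', r'⟩
  by_cases h : s ∈ B
  · by_cases h' : s' ∈ B
    · simp [h, h', Prod.ext_iff]
    · have hne : s ≠ s' := fun e => h' (e ▸ h)
      simp [h, h', hne]
  · by_cases h' : s' ∈ B
    · have hne : s ≠ s' := fun e => h (e ▸ h')
      simp [h, h', hne]
    · simp only [h, h', dif_neg, not_false_eq_true, ι.injective.eq_iff, Sum.inl.injEq,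
        Subtype.mk.injEq, Prod.mk.injEq, and_true]
      constructor
      · intro e
        exact Or.inr e
      · rintro (e | e)
        · exact e.1
        · exact e

end GCT
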