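import Pool.Agent.GCT.Defs

/-!
# GCT-TRob: adding one pair to a good triple of columns

`tr` of the row `u0` grows by at most one, the other rows are unchanged; for `r ≠ s` the set of the rows `u` with
`g' u r = g' u s = true` is contained in `insert u0` of the old set.
-/

open Finset

namespace GCT

theorem okT_of_good {ρ : Type*} [Fintype ρ] [DecidableEq ρ] (d : ℕ) (g g' : ρ → Fin 3 → Bool)
    (h : GoodT d g) (u0 : ρ) (r0 : Fin 3)
    (hg : ∀ u r, g' u r = true → g u r = true ∨ (u = u0 ∧ r = r0)) : OkT d g' := by
  have h1 : ∀ u, tr (g' u) - 1 ≤ (tr (g u) - 1) + (if u = u0 then 1 else 0) := by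
    intro u
    by_cases hu : u = u0
    · rw [if_pos hu]
      have h2 : tr (g' u) ≤ tr (g u) + 1 := by
        unfold tr
        refine (card_le_card (t := insert r0 (univ.filter (fun r => g u r = true))) ?_).trans
          (card_insert_le _ _)
        intro r hr
        rw [mem_filter] at hr
        rw [mem_insert, mem_filter]
        rcases hg u r hr.2 with h3 | h3
        · exact Or.inr ⟨mem_univ _, h3⟩
        · exact Or.inl h3.2
      omega
    · rw [if_neg hu]
      have h2 : tr (g' u) ≤ tr (g u) := by
        unfold tr
        refine card_le_card ?_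
        intro r hr
        rw [mem_filter] at hr ⊢
        rcases hg u r hr.2 with h3 | h3
        · exact ⟨mem_univ _, h3⟩
        · exact absurd h3.1 hu
      omega
  refine ⟨?_, ?_⟩
  · have h2 : ∑ u, (tr (g' u) - 1) ≤ (∑ u, (tr (g u) - 1)) + 1 := by
      refine (sum_le_sum (fun u _ => h1 u)).trans ?_
      rw [sum_add_distrib, sum_ite_eq' univ u0 (fun _ => 1), if_pos (mem_univ _)]
    exact h2.trans h.1
  · intro r s hrs
    refine (card_le_card (t := insert u0 (univ.filter (fun u => g u r = true ∧ g u s = true))) ?_).trans
      ((card_insert_le _ _).trans (h.2 r s hrs))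
    intro u hu
    rw [mem_filter] at hu
    rw [mem_insert, mem_filter]
    by_cases hu0 : u = u0
    · exact Or.inl hu0
    · right
      refine ⟨mem_univ _, ?_, ?_⟩
      · exact (hg u r hu.2.1).resolve_right (fun h3 => hu0 h3.1)
      · exact (hg u s hu.2.2).resolve_right (fun h3 => hu0 h3.1)

end GCT
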