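import Pool.Agent.GCT.TGen
import Pool.Agent.GCT.TRob
import Pool.Agent.GCT.Cls

/-!
# GCT-PairSp: special vectors for a pair of blocks which is not bad

`B` = the set of bad `s : Fin k` (`nbad` is its cardinality), `cl` from `cls`, `q v = Pi.single (cl v) 1`.
`p` from `tgen` with `σ = {s // s ∉ B}`, `ρ = Ix k`, `g s u r = f (u, (s, r)) || decide ((u, (s, r)) = e)`
(`OkT` by `okT_of_good`, with `u0 = e.1`, `r0 = e.2.2`).
Let `N` be as in `NS`.  Fix `u`.  The relation at `c = cl v` says that the sum of `N u w` over the `w` with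
`cl w = cl v` is zero.  If `v.1 ∈ B` this is only `w = v`: `N u v = 0`.  If `v.1 = s ∉ B` these are the three
`w = (s, r)`: `∑ r, N u (s, r) = 0`.  For `s ∉ B` apply `TC (g s) p` to `fun u r => N u (s, r)`.
-/

open Finset

namespace GCT

theorem pair_special (k m : ℕ) (f : Ix k × Ix k → Bool) (hf : nbad (k + 2 * m) f ≤ m)
    (e : Ix k × Ix k) : ∃ p q : Ix k → Fin (k + 2 * m) → ℝ, NS f e p q := by
  classical
  obtain ⟨B, hBdef⟩ : ∃ B : Finset (Fin k), B =
      univ.filter (fun s : Fin k =>
        ¬ GoodT (k + 2 * m) (fun (u : Ix k) (r : Fin 3) => f (u, (s, r)))) := ⟨_, rfl⟩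
  have hBc : B.card ≤ m := by
    refine le_trans (le_of_eq ?_) hf
    rw [hBdef]
    unfold nbad
    congr
  have hgood : ∀ s, s ∉ B → GoodT (k + 2 * m) (fun (u : Ix k) (r : Fin 3) => f (u, (s, r))) := by
    intro s hs
    by_contra h
    apply hs
    rw [hBdef, mem_filter]
    exact ⟨mem_univ _, h⟩
  obtain ⟨cl, hcl⟩ := cls k m B hBc
  obtain ⟨p, hp⟩ := tgen (ρ := Ix k) (σ := {s : Fin k // s ∉ B}) (k + 2 * m)
    (fun s u r => f (u, (s.1, r)) || decide ((u, (s.1, r)) = e)) (by
      intro s
      refine okT_of_good (k + 2 * m) (fun u r => f (u, (s.1, r))) _ (hgood s.1 s.2) e.1 e.2.2 ?_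
      intro u r h
      rw [Bool.or_eq_true, decide_eq_true_eq] at h
      rcases h with h | h
      · exact Or.inl h
      · right
        rw [← h]
        exact ⟨rfl, rfl⟩)
  refine ⟨p, fun v => Pi.single (cl v) 1, ?_⟩
  intro N hsup hq hp2 u v
  have key : ∀ u v, ∑ w, (if cl w = cl v then N u w else 0) = 0 := by
    intro u v
    refine Eq.trans ?_ (hq u (cl v))
    apply Finset.sum_congr rfl
    intro w _
    show (if cl w = cl v then N u w else 0) =
      N u w * (Pi.single (cl w) (1 : ℝ) : Fin (k + 2 * m) → ℝ) (cl v)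
    rw [Pi.single_apply]
    by_cases h : cl w = cl v
    · rw [if_pos h, if_pos h.symm, mul_one]
    · rw [if_neg h, if_neg (Ne.symm h), mul_zero]
  by_cases hv : v.1 ∈ B
  · have h1 := key u v
    rw [Finset.sum_eq_single v] at h1
    · rwa [if_pos rfl] at h1
    · intro w _ hw
      rw [if_neg]
      intro h2
      rcases (hcl w v).1 h2 with h3 | h3
      · exact hw h3
      · exact h3.2 (h3.1 ▸ hv)
    · intro h2
      exact absurd (mem_univ _) h2
  · obtain ⟨s, r0⟩ := v
    have hrow : ∀ u, ∑ r, N u (s, r) = 0 := by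
      intro u
      have h1 := key u (s, r0)
      rw [Fintype.sum_prod_type, Finset.sum_eq_single s] at h1
      · rw [← h1]
        apply Finset.sum_congr rfl
        intro r _
        have h5 : cl (s, r) = cl (s, r0) := (hcl (s, r) (s, r0)).2 (Or.inr ⟨rfl, hv⟩)
        rw [if_pos h5]
      · intro s' _ hs'
        apply Finset.sum_eq_zero
        intro r _
        rw [if_neg]
        intro h2
        rcases (hcl _ _).1 h2 with h3 | h3
        · exact hs' (congrArg Prod.fst h3)
        · exact hs' h3.1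
      · intro h2
        exact absurd (mem_univ _) h2
    refine hp ⟨s, hv⟩ (fun u r => N u (s, r)) ?_ hrow (fun r c => hp2 (s, r) c) u r0
    intro u r h
    rw [Bool.or_eq_true, decide_eq_true_eq]
    exact hsup u (s, r) h

end GCT
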