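import Pool.Agent.GCT.Defs

/-!
# GCT-TCol: colouring of the rows with at least two `true`s by `d` colours

Let `n3 = #{u | tr (g u) = 3}` and for the three 2-types `{0,1}, {0,2}, {1,2}` let `n_a` be the number of `u` with
`tr (g u) = 2` of this type.  `h.2` says `n3 + n_a ≤ d` (the rows with `g u r = g u s = true` are those of the 2-type
`{r, s}` and those with `tr = 3`), `h.1` says `2 n3 + n_01 + n_02 + n_12 ≤ 2 d`.  Let `d' = d - n3`.
Colour the rows with `tr = 3` by the different colours `0, .., n3 - 1`.  Give the rows with `tr = 2` different positions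
`pos u < n_01 + n_02 + n_12 ≤ 2 d'`, first type `01`, then type `02`, then type `12` (so two rows of the same type have
positions with difference `< n_a ≤ d'`), and colour `u` by `n3 + pos u % d'`.
Two different rows with the same colour have `tr = 2` and positions with difference exactly `d'`, hence different types;
three different rows cannot have the same colour (positions `< 2 d'`).
(If `d' = 0` there are no rows with `tr = 2`.)
Suggestion: positions from `Fintype.equivFin`/`Finset.equivFin` of the three classes; or prove first the lemma: for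
finsets `A, B, C` (pairwise disjoint) with `|A|, |B|, |C| ≤ d'`, `|A| + |B| + |C| ≤ 2 d'` there is
`c : ρ → ℕ` with values `< d'` on `A ∪ B ∪ C`, injective on each of `A`, `B`, `C`, and no three elements of
`A ∪ B ∪ C` with the same value.
-/

open Finset

namespace GCT

private noncomputable def tcolIdx {ρ : Type*} (K : Finset ρ) [DecidableEq ρ] (u : ρ) : ℕ :=
  if h : u ∈ K then (K.equivFin ⟨u, h⟩ : ℕ) else 0

private theorem tcolIdx_lt {ρ : Type*} [DecidableEq ρ] {K : Finset ρ} {u : ρ} (h : u ∈ K) :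
    tcolIdx K u < K.card := by
  unfold tcolIdx
  rw [dif_pos h]
  exact Fin.is_lt _

private theorem tcolIdx_inj {ρ : Type*} [DecidableEq ρ] {K : Finset ρ} {u v : ρ} (h : u ∈ K)
    (h' : v ∈ K) (e : tcolIdx K u = tcolIdx K v) : u = v := by
  unfold tcolIdx at e
  rw [dif_pos h, dif_pos h'] at e
  have h1 := K.equivFin.injective (Fin.ext e)
  exact congrArg Subtype.val h1

private def tT (i : Fin 4) : Fin 3 → Bool :=
  ![![true, true, true], ![true, true, false], ![true, false, true], ![false, true, true]] i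

private theorem tT_cases (τ : Fin 3 → Bool) (h : 2 ≤ tr τ) :
    τ = tT 0 ∨ τ = tT 1 ∨ τ = tT 2 ∨ τ = tT 3 := by
  revert τ
  decide

private theorem tT_tr : tr (tT 1) = 2 ∧ tr (tT 2) = 2 ∧ tr (tT 3) = 2 := by decide

private theorem tT_ne : tT 1 ≠ tT 0 ∧ tT 2 ≠ tT 0 ∧ tT 3 ≠ tT 0 ∧ tT 2 ≠ tT 1 ∧ tT 3 ≠ tT 1 ∧
    tT 3 ≠ tT 2 := by decide

private theorem tT_sum (τ : Fin 3 → Bool) :
    2 * (if τ = tT 0 then 1 else 0) + (if τ = tT 1 then 1 else 0) + (if τ = tT 2 then 1 else 0) +
      (if τ = tT 3 then 1 else 0) ≤ tr τ - 1 := by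
  revert τ
  decide

theorem tcol {ρ : Type*} [Fintype ρ] [DecidableEq ρ] (d : ℕ) (g : ρ → Fin 3 → Bool) (h : OkT d g) :
    ∃ c : {u : ρ // 2 ≤ tr (g u)} → Fin d,
      (∀ u v, u ≠ v → c u = c v → tr (g u.1) = 2 ∧ tr (g v.1) = 2 ∧ g u.1 ≠ g v.1) ∧
      (∀ u v w, u ≠ v → v ≠ w → u ≠ w → c u = c v → c v ≠ c w) := by
  obtain ⟨K, hK⟩ : ∃ K : Fin 4 → Finset ρ, ∀ i u, u ∈ K i ↔ g u = tT i :=
    ⟨fun i => univ.filter (fun u => g u = tT i), fun i u => by simp⟩
  have hKf : ∀ i, K i = univ.filter (fun u => g u = tT i) := fun i => by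
    ext u
    rw [hK]
    simp
  have hsum : 2 * (K 0).card + (K 1).card + (K 2).card + (K 3).card ≤ 2 * d := by
    refine le_trans ?_ h.1
    rw [hKf 0, hKf 1, hKf 2, hKf 3]
    simp only [card_filter]
    rw [mul_sum, ← sum_add_distrib, ← sum_add_distrib, ← sum_add_distrib]
    exact sum_le_sum fun u _ => tT_sum (g u)
  have hpair : ∀ (i : Fin 4) (r s : Fin 3), r ≠ s → i ≠ 0 → tT i r = true → tT i s = true →
      (K 0).card + (K i).card ≤ d := by
    intro i r s hrs hi h1 h2
    refine le_trans ?_ (h.2 r s hrs)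
    have h3 : Disjoint (K 0) (K i) := by
      rw [disjoint_left]
      intro u hu hu'
      rw [hK] at hu hu'
      rw [hu] at hu'
      obtain ⟨k1, k2, k3, -⟩ := tT_ne
      fin_cases i
      · exact hi rfl
      · exact k1 hu'.symm
      · exact k2 hu'.symm
      · exact k3 hu'.symm
    rw [← card_union_of_disjoint h3]
    refine card_le_card ?_
    intro u hu
    rw [mem_union, hK, hK] at hu
    rw [mem_filter]
    refine ⟨mem_univ _, ?_⟩
    rcases hu with hu | hu
    · rw [hu]
      constructor <;> [(fin_cases r <;> rfl); (fin_cases s <;> rfl)]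
    · rw [hu]
      exact ⟨h1, h2⟩
  have hp1 := hpair 1 0 1 (by decide) (by decide) rfl rfl
  have hp2 := hpair 2 0 2 (by decide) (by decide) rfl rfl
  have hp3 := hpair 3 1 2 (by decide) (by decide) rfl rfl
  obtain ⟨D, hD⟩ : ∃ D, (K 0).card + D = d := ⟨d - (K 0).card, by omega⟩
  -- positions
  obtain ⟨pos, hpos⟩ : ∃ pos : ρ → ℕ, ∀ u, pos u = if g u = tT 1 then tcolIdx (K 1) u else
      if g u = tT 2 then (K 1).card + tcolIdx (K 2) u else
        (K 1).card + (K 2).card + tcolIdx (K 3) u := ⟨_, fun _ => rfl⟩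
  obtain ⟨n1, n2, n3, n4, n5, n6⟩ := tT_ne
  have q1 : ∀ u, g u = tT 1 → pos u = tcolIdx (K 1) u ∧ tcolIdx (K 1) u < (K 1).card := by
    intro u hu
    exact ⟨by rw [hpos, if_pos hu], tcolIdx_lt ((hK 1 u).2 hu)⟩
  have q2 : ∀ u, g u = tT 2 → pos u = (K 1).card + tcolIdx (K 2) u ∧
      tcolIdx (K 2) u < (K 2).card := by
    intro u hu
    exact ⟨by rw [hpos, if_neg (by rw [hu]; exact n4), if_pos hu], tcolIdx_lt ((hK 2 u).2 hu)⟩
  have q3 : ∀ u, g u = tT 3 → pos u = (K 1).card + (K 2).card + tcolIdx (K 3) u ∧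
      tcolIdx (K 3) u < (K 3).card := by
    intro u hu
    exact ⟨by rw [hpos, if_neg (by rw [hu]; exact n5), if_neg (by rw [hu]; exact n6)],
      tcolIdx_lt ((hK 3 u).2 hu)⟩
  -- facts about rows with two trues
  have P1 : ∀ u, 2 ≤ tr (g u) → g u ≠ tT 0 → pos u < 2 * D ∧ tr (g u) = 2 := by
    intro u hu hu0
    rcases tT_cases (g u) hu with e | e | e | e
    · exact absurd e hu0
    · have := q1 u e
      exact ⟨by omega, by rw [e]; exact tT_tr.1⟩
    · have := q2 u e
      exact ⟨by omega, by rw [e]; exact tT_tr.2.1⟩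
    · have := q3 u e
      exact ⟨by omega, by rw [e]; exact tT_tr.2.2⟩
  have P2 : ∀ u v, 2 ≤ tr (g u) → g u ≠ tT 0 → 2 ≤ tr (g v) → g v ≠ tT 0 → pos u = pos v →
      u = v := by
    intro u v hu hu0 hv hv0 huv
    rcases tT_cases (g u) hu with e | e | e | e <;> rcases tT_cases (g v) hv with e' | e' | e' | e'
    · exact absurd e hu0
    · exact absurd e hu0
    · exact absurd e hu0
    · exact absurd e hu0
    · exact absurd e' hv0
    · have a1 := q1 u e
      have a2 := q1 v e'
      exact tcolIdx_inj ((hK 1 u).2 e) ((hK 1 v).2 e') (by omega)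
    · have a1 := q1 u e
      have a2 := q2 v e'
      omega
    · have a1 := q1 u e
      have a2 := q3 v e'
      omega
    · exact absurd e' hv0
    · have a1 := q2 u e
      have a2 := q1 v e'
      omega
    · have a1 := q2 u e
      have a2 := q2 v e'
      exact tcolIdx_inj ((hK 2 u).2 e) ((hK 2 v).2 e') (by omega)
    · have a1 := q2 u e
      have a2 := q3 v e'
      omega
    · exact absurd e' hv0
    · have a1 := q3 u e
      have a2 := q1 v e'
      omega
    · have a1 := q3 u e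
      have a2 := q2 v e'
      omega
    · have a1 := q3 u e
      have a2 := q3 v e'
      exact tcolIdx_inj ((hK 3 u).2 e) ((hK 3 v).2 e') (by omega)
  have P3 : ∀ u v, 2 ≤ tr (g u) → g u ≠ tT 0 → g u = g v → pos u < pos v + D := by
    intro u v hu hu0 huv
    rcases tT_cases (g u) hu with e | e | e | e
    · exact absurd e hu0
    · have a1 := q1 u e
      have a2 := q1 v (huv ▸ e)
      omega
    · have a1 := q2 u e
      have a2 := q2 v (huv ▸ e)
      omega
    · have a1 := q3 u e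
      have a2 := q3 v (huv ▸ e)
      omega
  -- the colouring
  obtain ⟨c0, hc0⟩ : ∃ c0 : ρ → ℕ, ∀ u, c0 u = if g u = tT 0 then tcolIdx (K 0) u else
      (K 0).card + pos u % D := ⟨_, fun _ => rfl⟩
  have hlt : ∀ u, 2 ≤ tr (g u) → c0 u < d := by
    intro u hu
    rw [hc0]
    by_cases hu0 : g u = tT 0
    · rw [if_pos hu0]
      have := tcolIdx_lt ((hK 0 u).2 hu0)
      omega
    · rw [if_neg hu0]
      have h1 := (P1 u hu hu0).1
      have h2 : 0 < D := by omega
      have := Nat.mod_lt (pos u) h2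
      omega
  have key : ∀ u v, u ≠ v → 2 ≤ tr (g u) → 2 ≤ tr (g v) → c0 u = c0 v →
      g u ≠ tT 0 ∧ g v ≠ tT 0 ∧ pos u ≠ pos v ∧ pos u % D = pos v % D := by
    intro u v huv hu hv e
    rw [hc0, hc0] at e
    by_cases hu0 : g u = tT 0
    · have a1 := tcolIdx_lt ((hK 0 u).2 hu0)
      by_cases hv0 : g v = tT 0
      · rw [if_pos hu0, if_pos hv0] at e
        exact absurd (tcolIdx_inj ((hK 0 u).2 hu0) ((hK 0 v).2 hv0) e) huv
      · rw [if_pos hu0, if_neg hv0] at e
        omega
    · by_cases hv0 : g v = tT 0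
      · have a1 := tcolIdx_lt ((hK 0 v).2 hv0)
        rw [if_neg hu0, if_pos hv0] at e
        omega
      · rw [if_neg hu0, if_neg hv0] at e
        exact ⟨hu0, hv0, fun h1 => huv (P2 u v hu hu0 hv hv0 h1), by omega⟩
  refine ⟨fun u => ⟨c0 u.1, hlt u.1 u.2⟩, ?_, ?_⟩
  · intro u v huv e
    obtain ⟨hu0, hv0, hne, hmod⟩ := key u.1 v.1 (fun h1 => huv (Subtype.ext h1)) u.2 v.2
      (congrArg Fin.val e)
    refine ⟨(P1 u.1 u.2 hu0).2, (P1 v.1 v.2 hv0).2, fun hg => ?_⟩
    have a1 := P3 u.1 v.1 u.2 hu0 hg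
    have a2 := P3 v.1 u.1 v.2 hv0 hg.symm
    have b1 := Nat.div_add_mod (pos u.1) D
    have b2 := Nat.div_add_mod (pos v.1) D
    rcases Nat.lt_trichotomy (pos u.1 / D) (pos v.1 / D) with h1 | h1 | h1
    · have h2 : D * (pos u.1 / D + 1) ≤ D * (pos v.1 / D) := Nat.mul_le_mul_left D h1
      rw [mul_add, mul_one] at h2
      omega
    · rw [h1] at b1
      omega
    · have h2 : D * (pos v.1 / D + 1) ≤ D * (pos u.1 / D) := Nat.mul_le_mul_left D h1
      rw [mul_add, mul_one] at h2
      omega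
  · intro u v w huv hvw huw e e'
    obtain ⟨hu0, hv0, hne, hmod⟩ := key u.1 v.1 (fun h1 => huv (Subtype.ext h1)) u.2 v.2
      (congrArg Fin.val e)
    obtain ⟨-, hw0, hne', hmod'⟩ := key v.1 w.1 (fun h1 => hvw (Subtype.ext h1)) v.2 w.2
      (congrArg Fin.val e')
    obtain ⟨-, -, hne'', -⟩ := key u.1 w.1 (fun h1 => huw (Subtype.ext h1)) u.2 w.2
      (congrArg Fin.val (e.trans e'))
    have a1 := (P1 u.1 u.2 hu0).1
    have a2 := (P1 v.1 v.2 hv0).1
    have a3 := (P1 w.1 w.2 hw0).1
    have b1 := Nat.div_add_mod (pos u.1) D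
    have b2 := Nat.div_add_mod (pos v.1) D
    have b3 := Nat.div_add_mod (pos w.1) D
    have c1 : pos u.1 / D < 2 := Nat.div_lt_of_lt_mul (by rw [mul_comm]; exact a1)
    have c2 : pos v.1 / D < 2 := Nat.div_lt_of_lt_mul (by rw [mul_comm]; exact a2)
    have c3 : pos w.1 / D < 2 := Nat.div_lt_of_lt_mul (by rw [mul_comm]; exact a3)
    have d1 : pos u.1 / D ≠ pos v.1 / D := by
      intro h1
      rw [h1] at b1
      omega
    have d2 : pos v.1 / D ≠ pos w.1 / D := by
      intro h1
      rw [h1] at b2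
      omega
    have d3 : pos u.1 / D ≠ pos w.1 / D := by
      intro h1
      rw [h1] at b1
      omega
    have fin : ∀ x y z : ℕ, x < 2 → y < 2 → z < 2 → x ≠ y → y ≠ z → x ≠ z → False := by
      intro x y z h1 h2 h3 h4 h5 h6
      omega
    exact fin _ _ _ c1 c2 c3 d1 d2 d3

end GCT
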