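import Pool.Agent.GCT.TCol

/-!
# GCT-TSp: special row vectors for one triple of columns

Take `c` from `tcol` and `p u = Pi.single (c u) 1` if `2 ≤ tr (g u)`, `p u = 0` otherwise.
Let `N` be as in `TC`.  A row whose support has at most one element is zero (`∑ r, N u r = 0`), in particular every
row with `tr (g u) ≤ 1`.  For `u` with `2 ≤ tr (g u)` and colour `c u = κ` the relation
`∑ u', N u' r * p u' κ = 0` says that the sum of `N u' r` over the rows `u'` of colour `κ` is zero.
If `u` is the only row of this colour, `N u r = 0`.  Otherwise there is exactly one other row `v` of the same colour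
(no three rows), `N u r + N v r = 0` for all `r`, `tr (g u) = tr (g v) = 2`, `g u ≠ g v`.  So there is `r` with
`g u r = true`, `g v r = false` (two different 2-subsets of `Fin 3`), hence `N v r = 0`, `N u r = 0`, the row `u` has
at most one more entry in its support, so it is zero; then `N v = - N u = 0`.
-/

open Finset

namespace GCT

private theorem tsp_d1 : ∀ a b : Fin 3 → Bool, tr a = 2 → tr b = 2 → a ≠ b →
    ∃ r, a r = true ∧ b r = false := by
  decide

private theorem tsp_d2 : ∀ a : Fin 3 → Bool, tr a = 2 → ∀ r, a r = true →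
    ∃ r0, ∀ r', r' ≠ r0 → (a r' = false ∨ r' = r) := by
  decide

private theorem tsp_d3 : ∀ a : Fin 3 → Bool, tr a ≤ 1 → ∃ r0, ∀ r', r' ≠ r0 → a r' = false := by
  decide

private theorem tsp_row (x : Fin 3 → ℝ) (hx : ∑ r, x r = 0) (r0 : Fin 3)
    (h : ∀ r, r ≠ r0 → x r = 0) : ∀ r, x r = 0 := by
  have h1 : ∑ r, x r = x r0 :=
    Finset.sum_eq_single r0 (fun r _ hr => h r hr) (fun hn => absurd (Finset.mem_univ _) hn)
  intro r
  by_cases hr : r = r0
  · rw [hr, ← h1, hx]
  · exact h r hr

theorem tsp {ρ : Type*} [Fintype ρ] [DecidableEq ρ] (d : ℕ) (g : ρ → Fin 3 → Bool) (h : OkT d g) :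
    ∃ p : ρ → Fin d → ℝ, TC g p := by
  classical
  obtain ⟨c, hc1, hc2⟩ := tcol d g h
  set p : ρ → Fin d → ℝ := fun u κ =>
    if hu : 2 ≤ tr (g u) then (if c ⟨u, hu⟩ = κ then 1 else 0) else 0 with hp
  have hp0 : ∀ u κ, (∀ hu : 2 ≤ tr (g u), c ⟨u, hu⟩ ≠ κ) → p u κ = 0 := by
    intro u κ hu
    simp only [hp]
    by_cases h1 : 2 ≤ tr (g u)
    · rw [dif_pos h1, if_neg (hu h1)]
    · rw [dif_neg h1]
  have hp1 : ∀ u (hu : 2 ≤ tr (g u)), p u (c ⟨u, hu⟩) = 1 := by
    intro u hu
    simp only [hp]
    rw [dif_pos hu, if_pos trivial]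
  refine ⟨p, fun N hN hrow hcol u => ?_⟩
  by_cases hu : 2 ≤ tr (g u)
  · by_cases hex : ∃ v, v ≠ u ∧ ∃ hv : 2 ≤ tr (g v), c ⟨v, hv⟩ = c ⟨u, hu⟩
    · obtain ⟨v, hvu, hv, hcv⟩ := hex
      have hne : (⟨u, hu⟩ : {u : ρ // 2 ≤ tr (g u)}) ≠ ⟨v, hv⟩ := by
        intro h1
        exact hvu (congrArg Subtype.val h1).symm
      obtain ⟨ht1, ht2, hg⟩ := hc1 ⟨u, hu⟩ ⟨v, hv⟩ hne hcv.symm
      have hsum : ∀ r, N u r + N v r = 0 := by
        intro r
        have h1 := hcol r (c ⟨u, hu⟩)
        rw [Finset.sum_eq_add u v (Ne.symm hvu) ?_ (fun hn => absurd (Finset.mem_univ _) hn)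
          (fun hn => absurd (Finset.mem_univ _) hn), hp1 u hu] at h1
        · rw [← hcv, hp1 v hv, mul_one, mul_one] at h1
          exact h1
        · rintro w - ⟨hwu, hwv⟩
          rw [hp0 w _ ?_, mul_zero]
          intro hw h2
          refine hc2 ⟨u, hu⟩ ⟨v, hv⟩ ⟨w, hw⟩ hne ?_ ?_ hcv.symm (hcv.trans h2.symm)
          · intro h3
            exact hwv (congrArg Subtype.val h3).symm
          · intro h3
            exact hwu (congrArg Subtype.val h3).symm
      obtain ⟨r, hr1, hr2⟩ := tsp_d1 (g u) (g v) ht1 ht2 hg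
      have hNv : N v r = 0 := by
        by_contra h1
        have := hN v r h1
        rw [hr2] at this
        exact absurd this (by decide)
      have hNu : N u r = 0 := by
        have := hsum r
        rw [hNv, add_zero] at this
        exact this
      obtain ⟨r0, hr0⟩ := tsp_d2 (g u) ht1 r hr1
      refine tsp_row (N u) (hrow u) r0 fun r' hr' => ?_
      rcases hr0 r' hr' with h1 | h1
      · by_contra h2
        have := hN u r' h2
        rw [h1] at this
        exact absurd this (by decide)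
      · rw [h1]
        exact hNu
    · push Not at hex
      intro r
      have h1 := hcol r (c ⟨u, hu⟩)
      rw [Finset.sum_eq_single u ?_ (fun hn => absurd (Finset.mem_univ _) hn), hp1 u hu,
        mul_one] at h1
      · exact h1
      · intro w _ hw
        rw [hp0 w _ (fun hw2 => hex w hw hw2), mul_zero]
  · obtain ⟨r0, hr0⟩ := tsp_d3 (g u) (by omega)
    refine tsp_row (N u) (hrow u) r0 fun r' hr' => ?_
    by_contra h2
    have := hN u r' h2
    rw [hr0 r' hr'] at this
    exact absurd this (by decide)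

end GCT
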