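import Pool.Agent.GCT.Gen
import Pool.Agent.GCT.TSp

/-!
# GCT-TGen: row vectors which work for finitely many triples of columns

`ι = ρ × Fin d`.  For fixed `s` the property `TC (g s) (fun u c => x (u, c))` is generic in `x : ρ × Fin d → ℝ`:
`gen_inj` with `S = ρ × Fin 3`, `R = (ρ × Fin 3) ⊕ ρ ⊕ (Fin 3 × Fin d)`,
`a (inl (u, r)) (u', r') = if g s u r = false ∧ u' = u ∧ r' = r then 1 else 0`,
`a (inr (inl u)) (u', r') = if u' = u then 1 else 0`,
`a (inr (inr (r, c))) (u', r') = if r' = r then X (u', c) else 0`;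
the relations for `c = fun p => N p.1 p.2` are exactly the hypotheses of `TC` (`Fintype.sum_prod_type`,
`Finset.sum_ite_eq`), and the point `x0` comes from `tsp`.  Then `Gen.all` and `Gen.exists_pt`.
-/

open Finset

namespace GCT

/-- the coefficients of the linear system of a triple of columns -/
private noncomputable def tgenA {ρ : Type*} [DecidableEq ρ] (d : ℕ) (g : ρ → Fin 3 → Bool) :
    ((ρ × Fin 3) ⊕ (ρ ⊕ (Fin 3 × Fin d))) → (ρ × Fin 3) → MvPolynomial (ρ × Fin d) ℝ
  | Sum.inl ur, s => if g ur.1 ur.2 = false ∧ s = ur then 1 else 0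
  | Sum.inr (Sum.inl u), s => if s.1 = u then 1 else 0
  | Sum.inr (Sum.inr rc), s => if s.2 = rc.1 then MvPolynomial.X (s.1, rc.2) else 0

private theorem tgen_iff {ρ : Type*} [Fintype ρ] [DecidableEq ρ] (d : ℕ) (g : ρ → Fin 3 → Bool)
    (x : ρ × Fin d → ℝ) (c : ρ × Fin 3 → ℝ) :
    (∀ r, ∑ s, MvPolynomial.eval x (tgenA d g r s) * c s = 0) ↔
      (∀ u r, c (u, r) ≠ 0 → g u r = true) ∧ (∀ u, ∑ r, c (u, r) = 0) ∧
        (∀ r e, ∑ u, c (u, r) * x (u, e) = 0) := by
  have h1 : ∀ u r, ∑ s, MvPolynomial.eval x (tgenA d g (Sum.inl (u, r)) s) * c s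
      = if g u r = false then c (u, r) else 0 := by
    intro u r
    by_cases hg : g u r = false
    · simp [tgenA, hg]
    · simp [tgenA, hg]
  have h2 : ∀ u, ∑ s, MvPolynomial.eval x (tgenA d g (Sum.inr (Sum.inl u)) s) * c s
      = ∑ r, c (u, r) := by
    intro u
    rw [Fintype.sum_prod_type]
    rw [Finset.sum_eq_single u]
    · simp [tgenA]
    · intro b _ hb
      simp [tgenA, hb]
    · intro hu
      exact absurd (Finset.mem_univ u) hu
  have h3 : ∀ r e, ∑ s, MvPolynomial.eval x (tgenA d g (Sum.inr (Sum.inr (r, e))) s) * c s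
      = ∑ u, c (u, r) * x (u, e) := by
    intro r e
    rw [Fintype.sum_prod_type]
    apply Finset.sum_congr rfl
    intro u _
    rw [Finset.sum_eq_single r]
    · simp [tgenA, mul_comm]
    · intro b _ hb
      simp [tgenA, hb]
    · intro hu
      exact absurd (Finset.mem_univ r) hu
  constructor
  · intro h
    refine ⟨?_, ?_, ?_⟩
    · intro u r hc
      have := h (Sum.inl (u, r))
      rw [h1] at this
      by_contra hg
      rw [Bool.not_eq_true] at hg
      rw [if_pos hg] at this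
      exact hc this
    · intro u
      have := h (Sum.inr (Sum.inl u))
      rwa [h2] at this
    · intro r e
      have := h (Sum.inr (Sum.inr (r, e)))
      rwa [h3] at this
  · rintro ⟨ha, hb, hc⟩ t
    rcases t with ⟨u, r⟩ | u | ⟨r, e⟩
    · rw [h1]
      split_ifs with hg
      · by_contra hne
        have := ha u r hne
        rw [hg] at this
        exact absurd this (by decide)
      · rfl
    · rw [h2]
      exact hb u
    · rw [h3]
      exact hc r e

private theorem tgen_one {ρ : Type*} [Fintype ρ] [DecidableEq ρ] (d : ℕ) (g : ρ → Fin 3 → Bool)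
    (h : OkT d g) : Gen (fun x : ρ × Fin d → ℝ => TC g (fun u c => x (u, c))) := by
  obtain ⟨p, hp⟩ := tsp d g h
  have hG := gen_inj (tgenA d g) (fun uc => p uc.1 uc.2) (by
    intro c hc
    rw [tgen_iff] at hc
    obtain ⟨ha, hb, hc'⟩ := hc
    have := hp (fun u r => c (u, r)) ha hb hc'
    rintro ⟨u, r⟩
    exact this u r)
  refine hG.mono ?_
  intro x hx N ha hb hc u r
  have := hx (fun s => N s.1 s.2) ((tgen_iff d g x _).2 ⟨ha, hb, hc⟩)
  exact this (u, r)

theorem tgen {ρ σ : Type*} [Fintype ρ] [DecidableEq ρ] [Fintype σ] (d : ℕ) (g : σ → ρ → Fin 3 → Bool)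
    (h : ∀ s, OkT d (g s)) : ∃ p : ρ → Fin d → ℝ, ∀ s, TC (g s) p := by
  obtain ⟨x, hx⟩ := (Gen.all (fun s => tgen_one d (g s) (h s))).exists_pt
  exact ⟨fun u c => x (u, c), hx⟩

end GCT
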